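import Mathlib
import Pool.Agent.Q109.LD.All

set_option autoImplicit false

/-!
# Facet-representing point sets on centrally symmetric polytopes (MP_688354_co)

`L_3 = 2/3` and `L_d = 1` for all `d ≥ 4`; together with the listed values `L_1 = 1`, `L_2 = 1/2`
this determines all the numbers `L_d`.

Upper bound for `d = 3`: in the graph whose vertices are the facets, two of them adjacent when they
intersect, the deletion of a nonempty set `S` of facets leaves at most `2 |S|` components (the facets
visible from a point form a connected set, and a polyhedron with `m` facets has at most `2 m - 4`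
vertices), so by the Tutte-Berge formula there is a matching missing at most one third of the facets;
take one point for every edge of the matching and one for every facet that it misses.
Lower bounds: cut off all vertices of a prism over a regular `2m`-gon (`d = 3`), resp. of the product
of two regular `2m`-gons and a cube (`d ≥ 4`), by small pairwise disjoint facets.
-/

namespace Pool.Agent.Results.MP_688354_co.FacetRepresentation

open Set

/-- Euclidean space `ℝ^d`. -/
abbrev E (d : ℕ) : Type := EuclideanSpace ℝ (Fin d)

/-- A convex polytope: the convex hull of finitely many points. -/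
def IsPolytope {d : ℕ} (P : Set (E d)) : Prop :=
  ∃ V : Finset (E d), P = convexHull ℝ (V : Set (E d))

/-- `P` is centrally symmetric (about some centre `c`). -/
def IsCentrallySymmetric {d : ℕ} (P : Set (E d)) : Prop :=
  ∃ c : E d, ∀ x : E d, x ∈ P ↔ (2 : ℝ) • c - x ∈ P

/-- `F` is a facet of `P`: the nonempty intersection of `P` with a supporting hyperplane, of
dimension `d - 1`. -/
def IsFacet {d : ℕ} (P F : Set (E d)) : Prop :=
  ∃ (u : E d) (h : ℝ), u ≠ 0 ∧ (∀ x ∈ P, inner ℝ u x ≤ h) ∧
    F = {x | x ∈ P ∧ inner ℝ u x = h} ∧ F.Nonempty ∧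
    Module.finrank ℝ (vectorSpan ℝ F) + 1 = d

/-- The finite set `K` of boundary points represents all facets of `P`: it meets every facet. -/
def Represents {d : ℕ} (P K : Set (E d)) : Prop :=
  K.Finite ∧ K ⊆ frontier P ∧ ∀ F, IsFacet P F → (K ∩ F).Nonempty

/-- The least number of boundary points needed to represent all facets. -/
noncomputable def minRep {d : ℕ} (P : Set (E d)) : ℕ :=
  sInf {k : ℕ | ∃ K : Set (E d), Represents P K ∧ K.ncard = k}

/-- `min |K| / |P|`, where `|P|` is the number of facets of `P`. -/
noncomputable def ratio {d : ℕ} (P : Set (E d)) : ℝ :=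
  (minRep P : ℝ) / ({F : Set (E d) | IsFacet P F}.ncard : ℝ)

/-- The ratios of all centrally symmetric convex polytopes of dimension `d` (with nonempty interior
in `ℝ^d`); `L_d` is its least upper bound. -/
def ratios (d : ℕ) : Set ℝ :=
  {t | ∃ P : Set (E d), IsPolytope P ∧ (interior P).Nonempty ∧ IsCentrallySymmetric P ∧
    t = ratio P}

/-- Every convex polytope with nonempty interior (`d ≥ 1`) has only finitely many facets, at least
one, and some finite set of boundary points represents all its facets; so the numbers in the
definition of the ratio are the ones they should be. -/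
theorem wellDefined (d : ℕ) (hd : 1 ≤ d) (P : Set (E d)) (hP : IsPolytope P)
    (hi : (interior P).Nonempty) :
    {F : Set (E d) | IsFacet P F}.Finite ∧ {F : Set (E d) | IsFacet P F}.Nonempty ∧
      ∃ K, Represents P K ∧ K.ncard = minRep P := by
  obtain ⟨n, u, h, hPe, hI, -, hF⟩ := Pool.Agent.Q125.LD.hrep d hd P hP hi
  have hfin : {F : Set (E d) | IsFacet P F}.Finite := by
    change {F : Set (Q109.LD.E d) | Q109.LD.IsFacet P F}.Finite
    rw [hF]; exact Set.finite_range _
  refine ⟨hfin, ?_, ?_⟩
  · change {F : Set (Q109.LD.E d) | Q109.LD.IsFacet P F}.Nonempty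
    rw [hF]
    rcases Nat.eq_zero_or_pos n with h0 | h0
    · exfalso
      subst h0
      have hu : Q109.LD.poly u h = Set.univ := by
        ext x
        simp [Q109.LD.poly]
      have hb := hI.bdd
      rw [hu] at hb
      have : Nontrivial (Q109.LD.E d) := by
        have : Nonempty (Fin d) := ⟨⟨0, hd⟩⟩
        infer_instance
      exact NormedSpace.unbounded_univ ℝ (Q109.LD.E d) hb
    · exact ⟨_, ⟨0, h0⟩, rfl⟩
  · have hcl : IsClosed P := by
      rw [hPe]; exact Pool.Agent.Q79.LD.isClosed_poly u h
    have hne : ∀ F : Set (E d), IsFacet P F → ∃ x, x ∈ F := by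
      rintro F ⟨_, _, _, _, _, hn, _⟩
      exact hn
    choose! f hf using hne
    have hrep : Represents P (f '' {F : Set (E d) | IsFacet P F}) := by
      refine ⟨hfin.image _, ?_, fun F hF' => ⟨f F, ⟨F, hF', rfl⟩, hf F hF'⟩⟩
      rintro _ ⟨F, hF', rfl⟩
      exact Pool.Agent.Q125.LD.facet_frontier P hcl F hF' (hf F hF')
    have hmem : ∃ k, k ∈ {k : ℕ | ∃ K : Set (E d), Represents P K ∧ K.ncard = k} :=
      ⟨_, _, hrep, rfl⟩
    exact Nat.sInf_mem hmem

/-- `L_3 = 2/3`, and `L_d = 1` for all `d ≥ 4`. (Last part: the numbers in the definition of the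
ratio are the ones they should be.) -/
theorem result :
    IsLUB (ratios 3) (2 / 3) ∧ (∀ d : ℕ, 4 ≤ d → IsLUB (ratios d) 1) ∧
    ∀ (d : ℕ), 1 ≤ d → ∀ P : Set (E d), IsPolytope P → (interior P).Nonempty →
      {F : Set (E d) | IsFacet P F}.Finite ∧ {F : Set (E d) | IsFacet P F}.Nonempty ∧
        ∃ K, Represents P K ∧ K.ncard = minRep P :=
  ⟨Q109.LD.all.1, Q109.LD.all.2, wellDefined⟩

end Pool.Agent.Results.MP_688354_co.FacetRepresentation
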